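import Mathlib
import Pool.Agent.U588.SphE

/-!
# The maximal ball partial sum operator: integer radii on the unit ball suffice

For a set `Λ` of radii and a set `B` of points let `N(Λ, B)` be the best constant in
`∫_B (sup_{R ∈ Λ} |S_R f|)² ≤ N ‖f‖₂²` for all Schwartz functions `f`, so that Q1 asks whether
`N = N((0, ∞), ℝⁿ)` is finite.

If every point of the half line is within `ℓ` of `Λ` and `B` is a ball of radius `ρ`, then
`√N ≤ √N(Λ, B) + √(10 n^(3/2) ρ ℓ)`. So Q1 is equivalent to the maximal inequality on the unit ball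
for the countably many integer radii, or on any ball for the multiples of any `h > 0` (for instance
only the radii `10⁶, 2·10⁶, 3·10⁶, …` on the unit ball), or for any relatively dense set of radii; and
the difference between the norms of these maximal operators is at most `√(10 n^(3/2) ρ ℓ)`.

Proof. The energy of the path `R ↦ S_R f(x)` is locally integrable in `x` (`Pool/Agent/Helper93/Sph`,
from the estimate of Agmon and Hörmander for a thin shell), and controls `|S_R f - S_{R'} f|²` by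
`|R - R'|`, simultaneously for all `R, R'`. This compares the two families on a ball; dilations pass
from a ball to the whole space, which is possible only for the family of all radii; Schwartz functions
are approximated in `L²` and Fatou's lemma is used.
-/

set_option autoImplicit false

open MeasureTheory Metric Filter Topology Set
open scoped ENNReal NNReal RealInnerProductSpace FourierTransform SchwartzMap

namespace Pool.Agent.Results.MP_ee701d_an.IntegerRadii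

/-- Euclidean space -/
abbrev E (n : ℕ) := EuclideanSpace ℝ (Fin n)

/-- the ball partial sum `S_R f(x)` -/
noncomputable def S {n : ℕ} (f : 𝓢(E n, ℂ)) (R : ℝ) (x : E n) : ℂ :=
  ∫ ξ in closedBall (0 : E n) R,
    Complex.exp (2 * Real.pi * Complex.I * ((⟪x, ξ⟫ : ℝ) : ℂ)) * 𝓕 f ξ

/-- `∫_B (sup_{R ∈ Λ} |S_R f|)² ≤ K ‖f‖₂²` for all Schwartz functions `f` -/
def Bound (n : ℕ) (Λ : Set ℝ) (B : Set (E n)) (K : ℝ≥0) : Prop :=
  ∀ f : 𝓢(E n, ℂ), ∫⁻ x in B, (⨆ R ∈ Λ, ‖S f R x‖ₑ) ^ 2 ≤ K * ∫⁻ x, ‖f x‖ₑ ^ 2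

/-- the estimate of Q1 in dimension `n` -/
def Q1 (n : ℕ) : Prop := ∃ K : ℝ≥0, Bound n (Ioi 0) univ K

theorem smax_eq {n : ℕ} (Λ : Set ℝ) (f : 𝓢(E n, ℂ)) (x : E n) :
    (⨆ R ∈ Λ, ‖S f R x‖ₑ) = Pool.Agent.U588.Sph.smax Λ (𝓕 f : 𝓢(E n, ℂ)) x := rfl

theorem planch {n : ℕ} (f : 𝓢(E n, ℂ)) :
    ∫⁻ ξ, ‖(𝓕 f : 𝓢(E n, ℂ)) ξ‖ₑ ^ 2 = ∫⁻ x, ‖f x‖ₑ ^ 2 := by
  rw [Pool.Agent.U588.Sph.lint_two, Pool.Agent.U588.Sph.lint_two]
  congr 1
  have h5 := SchwartzMap.norm_fourier_toL2_eq f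
  rw [SchwartzMap.norm_toLp, SchwartzMap.norm_toLp] at h5
  exact (ENNReal.toReal_eq_toReal_iff' ((𝓕 f : 𝓢(E n, ℂ)).memLp 2 volume).2.ne
    (f.memLp 2 volume).2.ne).1 h5

theorem main {n : ℕ} (hn : 1 ≤ n) {Λ : Set ℝ} {ℓ ρ : ℝ} (hρ : 0 < ρ) (hℓ : 0 ≤ ℓ)
    (hΛ0 : Λ ⊆ Ici 0) (hΛ : ∀ t : ℝ, 0 ≤ t → ∃ s ∈ Λ, |t - s| ≤ ℓ) {K : ℝ≥0}
    (h : Bound n Λ (closedBall 0 ρ) K) :
    Bound n (Ioi 0) univ ((√K + √(10 * n * √n * (ρ * ℓ))) ^ 2).toNNReal := by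
  obtain ⟨m, rfl⟩ : ∃ m, n = m + 1 := ⟨n - 1, by omega⟩
  intro f
  have h1 := Pool.Agent.U588.Sph.dense_all (m := m) (Λ := Λ) (K := (K : ℝ≥0∞)) hρ hℓ hΛ0 hΛ
    (fun G hG => Pool.Agent.U588.Sph.schwartz_L2 Λ (closedBall 0 ρ) ENNReal.coe_ne_top h hG)
    ((𝓕 f : 𝓢(E (m + 1), ℂ)).memLp 2 volume)
  rw [planch] at h1
  rw [Measure.restrict_univ]
  have e1 : ((K : ℝ≥0∞) ^ (1 / 2 : ℝ) +
      (ENNReal.ofReal (10 * (m + 1) * √(m + 1) * (ρ * ℓ))) ^ (1 / 2 : ℝ)) ^ 2 =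
      (((√K + √(10 * (m + 1 : ℕ) * √(m + 1 : ℕ) * (ρ * ℓ))) ^ 2).toNNReal : ℝ≥0∞) := by
    have e2 : ∀ y : ℝ, 0 ≤ y → ENNReal.ofReal y ^ (1 / 2 : ℝ) = ENNReal.ofReal (√y) := by
      intro y hy
      rw [ENNReal.ofReal_rpow_of_nonneg hy (by norm_num), Real.sqrt_eq_rpow]
    have e3 : (K : ℝ≥0∞) = ENNReal.ofReal K := (ENNReal.ofReal_coe_nnreal).symm
    rw [e3, e2 _ K.coe_nonneg, e2 _ (by positivity), ← ENNReal.ofReal_add (Real.sqrt_nonneg _)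
      (Real.sqrt_nonneg _), ← ENNReal.ofReal_pow (by positivity)]
    push_cast
    rfl
  rw [e1] at h1
  refine (lintegral_mono fun x => ?_).trans h1
  refine pow_le_pow_left' ?_ 2
  exact iSup₂_le fun R _ => le_iSup (fun R : ℝ => ‖Pool.Agent.Helper93.Sph.ps _ R x‖ₑ) R

/-- (1) comparison of the constants; (2) Q1 is equivalent to the inequality for the multiples of `h`
on a ball; (3) the same for every relatively dense set of radii. -/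
theorem result {n : ℕ} (hn : 1 ≤ n) :
    (∀ (Λ : Set ℝ) (ℓ ρ : ℝ) (K : ℝ≥0), 0 < ρ → 0 ≤ ℓ → Λ ⊆ Ici 0 →
      (∀ t : ℝ, 0 ≤ t → ∃ s ∈ Λ, |t - s| ≤ ℓ) → Bound n Λ (closedBall 0 ρ) K →
      Bound n (Ioi 0) univ ((√K + √(10 * n * √n * (ρ * ℓ))) ^ 2).toNNReal) ∧
    (∀ h ρ : ℝ, 0 < h → 0 < ρ →
      (Q1 n ↔ ∃ K : ℝ≥0, Bound n {R | ∃ k : ℕ, R = h * k} (closedBall 0 ρ) K)) ∧
    (∀ (Λ : Set ℝ) (ℓ ρ : ℝ), 0 < ρ → Λ ⊆ Ici 0 →
      (∀ t : ℝ, 0 ≤ t → ∃ s ∈ Λ, |t - s| ≤ ℓ) →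
      (Q1 n ↔ ∃ K : ℝ≥0, Bound n Λ (closedBall 0 ρ) K)) := by
  have h3 : ∀ (Λ : Set ℝ) (ℓ ρ : ℝ), 0 < ρ → Λ ⊆ Ici 0 →
      (∀ t : ℝ, 0 ≤ t → ∃ s ∈ Λ, |t - s| ≤ ℓ) →
      (Q1 n ↔ ∃ K : ℝ≥0, Bound n Λ (closedBall 0 ρ) K) := by
    intro Λ ℓ ρ hρ hΛ0 hΛ
    constructor
    · rintro ⟨K, hK⟩
      refine ⟨K, fun f => ?_⟩
      refine le_trans ?_ (hK f)
      rw [Measure.restrict_univ]
      refine le_trans ?_ (setLIntegral_le_lintegral (closedBall 0 ρ) _)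
      refine lintegral_mono fun x => pow_le_pow_left' (iSup₂_le fun R hR => ?_) 2
      have h0' : (0 : ℝ) ≤ R := hΛ0 hR
      rcases h0'.eq_or_lt with h0 | h0
      · obtain ⟨m, rfl⟩ : ∃ m, n = m + 1 := ⟨n - 1, by omega⟩
        have : S f R x = 0 := by
          rw [← h0]
          exact Pool.Agent.U588.Sph.ps_zero _ x
        rw [this]
        simp
      · exact le_iSup₂ (f := fun R (_ : R ∈ Ioi (0 : ℝ)) => ‖S f R x‖ₑ) R h0
    · rintro ⟨K, hK⟩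
      have hℓ : 0 ≤ ℓ := by
        obtain ⟨s, -, hs⟩ := hΛ 0 le_rfl
        exact (abs_nonneg _).trans hs
      exact ⟨_, main hn hρ hℓ hΛ0 hΛ hK⟩
  refine ⟨fun Λ ℓ ρ K hρ hℓ hΛ0 hΛ h => main hn hρ hℓ hΛ0 hΛ h, fun h ρ hh hρ => ?_, h3⟩
  refine h3 _ h ρ hρ ?_ fun t ht => ?_
  · rintro R ⟨k, rfl⟩
    simp only [mem_Ici]
    positivity
  · refine ⟨h * ⌊t / h⌋₊, ⟨_, rfl⟩, ?_⟩
    have a1 : (⌊t / h⌋₊ : ℝ) ≤ t / h := Nat.floor_le (by positivity)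
    have a2 : t / h < (⌊t / h⌋₊ : ℝ) + 1 := Nat.lt_floor_add_one _
    rw [le_div_iff₀ hh] at a1
    rw [div_lt_iff₀ hh] at a2
    rw [abs_le]
    constructor <;> nlinarith

end Pool.Agent.Results.MP_ee701d_an.IntegerRadii
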